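import Pool.Agent.helper50.BS.SpecC

/-!
# bs:CG3. Compatible families of connected sets are determined by their union
-/

set_option autoImplicit false
set_option linter.unusedVariables false
set_option linter.dupNamespace false

open Finset

open scoped Classical

noncomputable section

namespace Pool.Agent.BS

theorem CG3_sub {X : Type} (adj : X → X → Prop) (T1 T2 : Finset (Finset X))
    (h1 : ∀ K ∈ T1, Conn adj K) (hc : Compat (Touch adj) T2)
    (hU : T1.biUnion id = T2.biUnion id) (K L : Finset X) (hK : K ∈ T1) (hL : L ∈ T2) (a : X)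
    (ha : a ∈ K) (ha' : a ∈ L) : K ⊆ L := by
  intro b hb
  have hr : Reach adj K a b := (h1 K hK).2 a ha b hb
  induction hr with
  | refl => exact ha'
  | tail _ hbc ih =>
    rename_i u v _
    by_cases hu : u ∈ K
    · have hu' := ih hu
      have hv : v ∈ T2.biUnion id := by
        rw [← hU, Finset.mem_biUnion]
        exact ⟨K, hK, hbc.2⟩
      rw [Finset.mem_biUnion] at hv
      obtain ⟨L', hL', hv'⟩ := hv
      by_cases he : L = L'
      · rw [he]; exact hv'
      · exact absurd ⟨u, hu', v, hv', Or.inr hbc.1⟩ (hc L hL L' hL' he)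
    · exfalso
      rename_i hr'
      cases hr' with
      | refl => exact hu ha
      | tail _ h => exact hu h.2

theorem CG3_le {X : Type} (adj : X → X → Prop) (T1 T2 : Finset (Finset X))
    (h1 : ∀ K ∈ T1, Conn adj K) (h2 : ∀ K ∈ T2, Conn adj K) (hc1 : Compat (Touch adj) T1)
    (hc2 : Compat (Touch adj) T2) (hU : T1.biUnion id = T2.biUnion id) : T1 ⊆ T2 := by
  intro K hK
  obtain ⟨a, ha⟩ := (h1 K hK).1
  have hmem : a ∈ T2.biUnion id := by
    rw [← hU, Finset.mem_biUnion]
    exact ⟨K, hK, ha⟩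
  rw [Finset.mem_biUnion] at hmem
  obtain ⟨L, hL, ha'⟩ := hmem
  have e : K = L := Finset.Subset.antisymm
    (CG3_sub adj T1 T2 h1 hc2 hU K L hK hL a ha ha')
    (CG3_sub adj T2 T1 h2 hc1 hU.symm L K hL hK a ha' ha)
  rw [e]
  exact hL

theorem CG3 : CG3_stmt := by
  intro X adj T1 T2 _ h1 h2 hc1 hc2 hU
  exact Finset.Subset.antisymm (CG3_le adj T1 T2 h1 h2 hc1 hc2 hU)
    (CG3_le adj T2 T1 h2 h1 hc2 hc1 hU.symm)

end Pool.Agent.BS

end
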