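import Pool.Agent.helper50.BS.SpecC

/-!
# bs:CG6. Main theorem of the cluster part
-/

set_option autoImplicit false
set_option linter.unusedVariables false
set_option linter.dupNamespace false

open Finset

open scoped Classical

noncomputable section

namespace Pool.Agent.BS

theorem CG6 (hCX2 : CX2_stmt) (hCX5 : CX5_stmt) (hCX6 : CX6_stmt) (hCG1 : CG1_stmt)
    (hCG5 : CG5_stmt) : CG6_stmt := by
  intro X R _ adj ω X0 β Z Q hsym hω0 hωm hnil hZ hQ hne
  have hunit : ∀ F : Finset (Finset X), F ⊆ Conns adj X0 → IsUnit (Xi (Touch adj) ω F) := by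
    intro F hF
    refine hCX2 (Finset X) R (Touch adj) ω F fun a ha => ?_
    have h1 := Finset.mem_filter.mp (hF ha)
    exact hnil a (Finset.mem_powerset.mp h1.1) h1.2.1
  set f : Finset (Finset X) → Rˣ := fun F =>
    if h : F ⊆ Conns adj X0 then (hunit F h).unit else 1 with hf
  have hfv : ∀ F : Finset (Finset X), F ⊆ Conns adj X0 → (f F : R) = Xi (Touch adj) ω F := by
    intro F hF
    rw [hf]
    simp only
    rw [dif_pos hF]
    exact (hunit F hF).unit_spec
  have hZf : ∀ U, Z U = f ((Conns adj X0).filter (fun K => K ∩ β ⊆ U)) := by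
    intro U
    apply Units.ext
    rw [hfv _ (Finset.filter_subset _ _), hZ, hCG5 X R adj ω X0 β U hsym hω0 hωm]
  have h6 := hCX6 (Finset X) X R f (Conns adj X0) (fun K => K ∩ β) Z Q hZf
  rw [h6] at hne
  obtain ⟨G, hG, hG1⟩ := Finset.exists_ne_one_of_prod_ne_one hne
  rw [Finset.mem_filter, Finset.mem_powerset] at hG
  obtain ⟨hGsub, hGQ⟩ := hG
  have hGne : G.Nonempty := by
    rw [Finset.nonempty_iff_ne_empty]
    rintro rfl
    rw [Finset.biUnion_empty] at hGQ
    rw [← hGQ] at hQ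
    exact Finset.not_nonempty_empty hQ
  have htsym : ∀ a b : Finset X, Touch adj a b → Touch adj b a := by
    rintro a b ⟨x, hx, y, hy, h | h⟩
    · exact ⟨y, hy, x, hx, Or.inl h.symm⟩
    · exact ⟨y, hy, x, hx, Or.inr (hsym _ _ h)⟩
  obtain ⟨hlink, hprod⟩ := hCX5 (Finset X) R (Touch adj) ω f G htsym
    (fun F hF => hfv F (hF.trans hGsub)) hGne hG1
  have hGm : ∀ K ∈ G, K ⊆ X0 ∧ Conn adj K := by
    intro K hK
    have h1 := Finset.mem_filter.mp (hGsub hK)
    exact ⟨Finset.mem_powerset.mp h1.1, h1.2⟩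
  refine ⟨G, hGne, hGm, hCG1 X adj G hsym (fun K hK => (hGm K hK).2) hlink, ?_, hprod⟩
  rw [← hGQ, Finset.biUnion_inter]
  rfl

end Pool.Agent.BS

end
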