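import Pool.Agent.helper50.BS.SpecT

/-!
# bs:TB6. Singletons
-/

set_option autoImplicit false
set_option linter.unusedVariables false
set_option linter.dupNamespace false

open Finset

open scoped Classical

noncomputable section

namespace Pool.Agent.BS

theorem TB6_dl (g : IG) (v e : ℕ) (he : e ∈ g.E) : e ∈ g.dl {v} ↔ g.s e = v ∨ g.t e = v := by
  have hne := g.ne e he
  rw [IG.dl, Finset.mem_filter, Finset.mem_singleton, Finset.mem_singleton]
  constructor
  · rintro ⟨-, h⟩
    by_contra hn
    rw [not_or] at hn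
    exact h ⟨fun h1 => absurd h1 hn.1, fun h1 => absurd h1 hn.2⟩
  · intro h
    refine ⟨he, fun h1 => ?_⟩
    rcases h with h | h
    · exact hne (h.trans (h1.mp h).symm)
    · exact hne ((h1.mpr h).trans h.symm)

theorem TB6_EW (g : IG) (v : ℕ) : g.EW {v} = g.dl {v} := by
  ext e
  by_cases he : e ∈ g.E
  · rw [TB6_dl g v e he, IG.EW, Finset.mem_filter, Finset.mem_singleton, Finset.mem_singleton]
    exact ⟨fun h => h.2, fun h => ⟨he, h⟩⟩
  · rw [IG.EW, IG.dl, Finset.mem_filter, Finset.mem_filter]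
    exact ⟨fun h => absurd h.1 he, fun h => absurd h.1 he⟩

theorem TB6 : TB6_stmt := by
  intro g R _ x y v P hP
  have hPE : P ⊆ g.E := fun e he => (Finset.mem_filter.mp (hP he)).1
  set A0 : Finset (ℕ ⊕ ℕ) := (∅ : Finset ℕ).disjSum P with hA0
  set A1 : Finset (ℕ ⊕ ℕ) := ({v} : Finset ℕ).disjSum P with hA1
  have hne : A0 ≠ A1 := by
    intro h
    have h1 : Sum.inl v ∈ A1 := by rw [hA1]; exact Finset.inl_mem_disjSum.mpr (Finset.mem_singleton_self v)
    rw [← h, hA0] at h1
    exact absurd (Finset.inl_mem_disjSum.mp h1) (Finset.notMem_empty _)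
  have hset : (g.X0 {v}).powerset.filter (fun A => A.toRight ∩ g.dl {v} = P) = {A0, A1} := by
    ext A
    rw [Finset.mem_filter, Finset.mem_powerset, Finset.mem_insert, Finset.mem_singleton]
    unfold IG.X0
    rw [TB6_EW]
    constructor
    · rintro ⟨h1, h2⟩
      have h3 : A.toRight ⊆ g.dl {v} := by
        intro e he
        rw [Finset.mem_toRight] at he
        exact Finset.inr_mem_disjSum.mp (h1 he)
      rw [Finset.inter_eq_left.mpr h3] at h2
      have h4 : A.toLeft ⊆ {v} := by
        intro e he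
        rw [Finset.mem_toLeft] at he
        exact Finset.inl_mem_disjSum.mp (h1 he)
      have h5 : A = A.toLeft.disjSum P := by
        rw [← h2, Finset.toLeft_disjSum_toRight]
      rcases Finset.subset_singleton_iff.mp h4 with h | h
      · left; rw [h5, h]
      · right; rw [h5, h]
    · rintro (h | h)
      · rw [h, hA0]
        exact ⟨Finset.disjSum_mono (Finset.empty_subset _) hP, by
          rw [Finset.toRight_disjSum, Finset.inter_eq_left.mpr hP]⟩
      · rw [h, hA1]
        exact ⟨Finset.disjSum_mono (Finset.Subset.refl _) hP, by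
          rw [Finset.toRight_disjSum, Finset.inter_eq_left.mpr hP]⟩
  have hn0 : nW {v} A0 = 0 := by
    unfold nW
    rw [hA0, Finset.toLeft_disjSum]
    simp
  have hn1 : nW {v} A1 = 1 := by
    unfold nW
    rw [hA1, Finset.toLeft_disjSum]
    simp
  have hc0 : g.cW {v} A0 = P.card := by
    unfold IG.cW
    have h1 : ∀ e ∈ g.E, ((if g.s e ∈ ({v} : Finset ℕ) ∧ ¬ (Sum.inl (g.s e) ∈ A0 ↔ Sum.inr e ∈ A0) then 1 else 0) +
        (if g.t e ∈ ({v} : Finset ℕ) ∧ ¬ (Sum.inl (g.t e) ∈ A0 ↔ Sum.inr e ∈ A0) then 1 else 0)) =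
        if e ∈ P then 1 else 0 := by
      intro e he
      have m1 : ∀ u, Sum.inl u ∈ A0 ↔ False := fun u => by
        rw [hA0, Finset.inl_mem_disjSum]; simp
      have m2 : Sum.inr e ∈ A0 ↔ e ∈ P := by rw [hA0]; exact Finset.inr_mem_disjSum
      have hst := g.ne e he
      have h2 : e ∈ P → g.s e = v ∨ g.t e = v := fun h => (TB6_dl g v e he).mp (hP h)
      simp only [m1, m2, Finset.mem_singleton]
      by_cases c : e ∈ P
      · rcases h2 c with h3 | h3
        · have h4 : g.t e ≠ v := fun h => hst (h3.trans h.symm)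
          simp [c, h3, h4]
        · have h4 : g.s e ≠ v := fun h => hst (h.trans h3.symm)
          simp [c, h3, h4]
      · simp [c]
    rw [Finset.sum_congr rfl h1, ← Finset.card_filter, Finset.filter_mem_eq_inter,
      Finset.inter_eq_right.mpr hPE]
  have hc1 : g.cW {v} A1 = (g.dl {v}).card - P.card := by
    rw [← Finset.card_sdiff_of_subset hP]
    unfold IG.cW
    have h1 : ∀ e ∈ g.E, ((if g.s e ∈ ({v} : Finset ℕ) ∧ ¬ (Sum.inl (g.s e) ∈ A1 ↔ Sum.inr e ∈ A1) then 1 else 0) +
        (if g.t e ∈ ({v} : Finset ℕ) ∧ ¬ (Sum.inl (g.t e) ∈ A1 ↔ Sum.inr e ∈ A1) then 1 else 0)) =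
        if e ∈ g.dl {v} \ P then 1 else 0 := by
      intro e he
      have m1 : ∀ u, Sum.inl u ∈ A1 ↔ u = v := fun u => by
        rw [hA1, Finset.inl_mem_disjSum, Finset.mem_singleton]
      have m2 : Sum.inr e ∈ A1 ↔ e ∈ P := by rw [hA1]; exact Finset.inr_mem_disjSum
      have hst := g.ne e he
      have m3 : e ∈ g.dl {v} \ P ↔ (g.s e = v ∨ g.t e = v) ∧ e ∉ P := by
        rw [Finset.mem_sdiff, TB6_dl g v e he]
      simp only [m1, m2, m3, Finset.mem_singleton]
      by_cases c : e ∈ P
      · simp [c]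
      · by_cases c1 : g.s e = v
        · have h4 : g.t e ≠ v := fun h => hst (c1.trans h.symm)
          simp [c, c1, h4]
        · by_cases c2 : g.t e = v
          · simp [c, c1, c2]
          · simp [c, c1, c2]
    rw [Finset.sum_congr rfl h1, ← Finset.card_filter, Finset.filter_mem_eq_inter]
    congr 1
    rw [Finset.inter_eq_right]
    intro e he
    exact (Finset.mem_filter.mp (Finset.mem_sdiff.mp he).1).1
  unfold FR
  rw [hset, Finset.sum_pair hne, hn0, hn1, hc0, hc1, pow_zero, one_mul, pow_one]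

end Pool.Agent.BS

end
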