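import Pool.Agent.helper50.BS.SpecT

/-!
# bs:TE1. The minimum of `c(A)` is the cut size
-/

set_option autoImplicit false
set_option linter.unusedVariables false
set_option linter.dupNamespace false

open Finset

open scoped Classical

noncomputable section

namespace Pool.Agent.BS

theorem TE1 : TE1_stmt := by
  intro g V k a hV
  have hdlV : g.dl V = ∅ := by
    rw [IG.dl, Finset.filter_eq_empty_iff]
    intro e he h
    exact h ⟨fun _ => (hV e he).2, fun _ => (hV e he).1⟩
  constructor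
  · rintro ⟨A1, hA1, hcard, hdl⟩
    set A : Finset (ℕ ⊕ ℕ) := A1.disjSum (g.EW A1) with hA
    have m1 : ∀ v, Sum.inl v ∈ A ↔ v ∈ A1 := by
      intro v; rw [hA]; exact Finset.inl_mem_disjSum
    have m2 : ∀ e, Sum.inr e ∈ A ↔ e ∈ g.EW A1 := by
      intro e; rw [hA]; exact Finset.inr_mem_disjSum
    refine ⟨g.cW V A, ?_, ?_⟩
    · refine le_trans (le_of_eq ?_) hdl
      unfold IG.cW IG.dl
      rw [Finset.card_filter]
      refine Finset.sum_congr rfl fun e he => ?_
      obtain ⟨hs, ht⟩ := hV e he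
      have h3 : Sum.inr e ∈ A ↔ (g.s e ∈ A1 ∨ g.t e ∈ A1) := by
        rw [m2, IG.EW, Finset.mem_filter]
        exact ⟨fun h => h.2, fun h => ⟨he, h⟩⟩
      simp only [m1, h3, hs, ht, true_and]
      by_cases c1 : g.s e ∈ A1 <;> by_cases c2 : g.t e ∈ A1 <;> simp [c1, c2]
    · unfold cnt
      rw [Finset.card_pos]
      refine ⟨A, ?_⟩
      rw [Finset.mem_filter, Finset.mem_powerset]
      refine ⟨?_, ?_, ?_, rfl⟩
      · unfold IG.X0
        rw [hA]
        refine Finset.disjSum_mono hA1 ?_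
        intro e he
        rw [IG.EW, Finset.mem_filter] at he ⊢
        exact ⟨he.1, he.2.imp (fun h => hA1 h) (fun h => hA1 h)⟩
      · rw [hdlV, Finset.inter_empty]
      · unfold nW
        rw [hA, Finset.toLeft_disjSum, Finset.inter_eq_left.mpr hA1, hcard]
  · rintro ⟨c, hc, hpos⟩
    unfold cnt at hpos
    rw [Finset.card_pos] at hpos
    obtain ⟨A, hA⟩ := hpos
    rw [Finset.mem_filter, Finset.mem_powerset] at hA
    obtain ⟨-, -, h2, h3⟩ := hA
    refine ⟨A.toLeft ∩ V, Finset.inter_subset_right, h2, ?_⟩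
    refine le_trans ?_ (h3.le.trans hc)
    unfold IG.cW IG.dl
    rw [Finset.card_filter]
    refine Finset.sum_le_sum fun e he => ?_
    obtain ⟨hs, ht⟩ := hV e he
    have e1 : g.s e ∈ A.toLeft ∩ V ↔ Sum.inl (g.s e) ∈ A := by
      rw [Finset.mem_inter, Finset.mem_toLeft]
      exact ⟨fun h => h.1, fun h => ⟨h, hs⟩⟩
    have e2 : g.t e ∈ A.toLeft ∩ V ↔ Sum.inl (g.t e) ∈ A := by
      rw [Finset.mem_inter, Finset.mem_toLeft]
      exact ⟨fun h => h.1, fun h => ⟨h, ht⟩⟩
    simp only [e1, e2, hs, ht, true_and]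
    by_cases c1 : Sum.inl (g.s e) ∈ A <;> by_cases c2 : Sum.inl (g.t e) ∈ A <;>
      by_cases c3 : Sum.inr e ∈ A <;> simp [c1, c2, c3]

end Pool.Agent.BS

end
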