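import Pool.Agent.helper50.BS.SpecT

/-!
# bs:TR3. Coefficients of sums of weights are numbers of sets
-/

set_option autoImplicit false
set_option linter.unusedVariables false
set_option linter.dupNamespace false

open Finset

open scoped Classical

noncomputable section

namespace Pool.Agent.BS

theorem TR3 : TR3_stmt := by
  intro M n k l T g W β P a c j ha hc hj
  constructor
  · rw [map_sum]
    unfold cntj om
    have h1 : ∀ A ∈ ((g.X0 W).powerset.filter fun A => A.toRight ∩ g.dl W = P),
        T.cf a c j (T.x ^ nW W A * T.y ^ g.cW W A * T.u ^ bB β A) =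
          if nW W A = a ∧ g.cW W A = c ∧ bB β A = j then 1 else 0 :=
      fun A _ => T.cf_mon a c j _ _ _ ha hc hj
    rw [Finset.sum_congr rfl h1, ← Finset.natCast_card_filter, Finset.filter_filter]
  · unfold cnt FR
    rw [map_sum]
    have h1 : ∀ A ∈ ((g.X0 W).powerset.filter fun A => A.toRight ∩ g.dl W = P),
        T.cf a c 0 (T.x ^ nW W A * T.y ^ g.cW W A) =
          if nW W A = a ∧ g.cW W A = c then 1 else 0 := by
      intro A _
      have h2 := T.cf_mon a c 0 (nW W A) (g.cW W A) 0 ha hc (Nat.zero_le _)
      rw [pow_zero, mul_one] at h2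
      rw [h2]
      simp
    rw [Finset.sum_congr rfl h1, ← Finset.natCast_card_filter, Finset.filter_filter]

end Pool.Agent.BS

end
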