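import Pool.Agent.helper50.BS.SpecU

/-!
# bs:URD. Reading the answer
-/

set_option autoImplicit false
set_option linter.unusedVariables false
set_option linter.dupNamespace false

open scoped Classical

noncomputable section

namespace Pool.Agent.helper50.BT

open Pool.Agent.helper81.PL

theorem URD (hTR3 : BS.TR3_stmt) : URD_stmt := by
  intro M n k E h T tab hM hok
  obtain ⟨r, hr, hrep⟩ := hok ∅ (Finset.empty_subset _)
  obtain ⟨-, hlt, hcf⟩ := hrep
  have hlt' : ∀ i, r.2.getD i 0 < M := by
    intro i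
    rw [List.getD_eq_getElem?_getD]
    rcases lt_or_ge i r.2.length with hi | hi
    · rw [List.getElem?_eq_getElem hi, Option.getD_some]
      exact hlt _ (List.getElem_mem hi)
    · rw [List.getElem?_eq_none hi, Option.getD_none]
      omega
  have hkey : ∀ c ≤ k, (cfT k (3 * k) r.2 (n / 2) c 0 = 0 ↔
      (BS.cnt (ig n E h) (Finset.range n) ∅ (n / 2) c : ZMod M) = 0) := by
    intro c hc
    have h1 := (hTR3 M n k (3 * k) T (ig n E h) (Finset.range n) ∅ ∅ (n / 2) c 0
      (Nat.div_le_self n 2) hc (Nat.zero_le _)).2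
    have h2 := hcf (n / 2) c 0 (Nat.div_le_self n 2) hc (Nat.zero_le _)
    rw [← h1, ← h2]
    constructor
    · intro h3
      rw [h3, Nat.cast_zero]
    · intro h3
      rw [ZMod.natCast_eq_zero_iff] at h3
      exact Nat.eq_zero_of_dvd_of_lt h3 (hlt' _)
  unfold read
  rw [hr, Option.map_some, Option.getD_some, List.any_eq_true]
  constructor
  · rintro ⟨c, hc, h1⟩
    rw [List.mem_range] at hc
    have hc' : c ≤ k := by omega
    refine ⟨c, hc', fun h2 => ?_⟩
    rw [← hkey c hc'] at h2
    rw [h2] at h1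
    simp [eqb] at h1
  · rintro ⟨c, hc, h1⟩
    refine ⟨c, List.mem_range.mpr (by omega), ?_⟩
    have h2 : cfT k (3 * k) r.2 (n / 2) c 0 ≠ 0 := fun h3 => h1 ((hkey c hc).mp h3)
    simp [eqb, h2]

end Pool.Agent.helper50.BT

end
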